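import Pool.Agent.N126.IS.Stm3
import Pool.Agent.N697.IS.GEN

/-!
Generic linear maps.
-/

set_option autoImplicit false

open Pool.Agent.W602.GT LinearAlgebra.Projectivization MvPolynomial
open Pool.Agent.N126.IS
open Pool.Agent.N697.IS (algInd_subst exists_mid exists_ext finPts_descend aeval_map)

namespace Pool.Agent.N353.IS

/-- the index set of the coefficients of the family and of the parameter -/
abbrev Ix (σ : Type) (M : ℕ) : Type := (Fin (M + 1) × σ) ⊕ Unit

/-- reordering -/
def ff (σ : Type) (M : ℕ) : Ix σ M → ((Fin M × σ) ⊕ Unit) ⊕ σ :=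
  Sum.elim (fun q => Fin.cases (Sum.inr q.2) (fun j => Sum.inl (Sum.inl (j, q.2))) q.1)
    (fun u => Sum.inl (Sum.inr u))

theorem ff_inj (σ : Type) (M : ℕ) : Function.Injective (ff σ M) := by
  rintro (⟨j, I⟩ | u) (⟨j', I'⟩ | u') h
  · induction j using Fin.cases with
    | zero =>
      induction j' using Fin.cases with
      | zero => simp only [ff, Sum.elim_inl, Fin.cases_zero, Sum.inr.injEq] at h; rw [h]
      | succ j' => simp [ff] at h
    | succ j =>
      induction j' using Fin.cases with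
      | zero => simp [ff] at h
      | succ j' =>
        simp only [ff, Sum.elim_inl, Fin.cases_succ, Sum.inl.injEq, Prod.mk.injEq] at h
        rw [h.1, h.2]
  · induction j using Fin.cases with
    | zero => simp [ff] at h
    | succ j => simp [ff] at h
  · induction j' using Fin.cases with
    | zero => simp [ff] at h
    | succ j => simp [ff] at h
  · rfl

/-- the substitution -/
noncomputable def pp (R : Type) [CommRing R] (ε : R) (σ : Type) (M : ℕ) :
    Ix σ M → MvPolynomial (Ix σ M) R :=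
  Sum.elim (fun q => Fin.cases (X (Sum.inl (0, q.2)) + C ε * ∑ j : Fin M,
      X (Sum.inl (j.succ, q.2)) * X (Sum.inr ()) ^ ((j : ℕ) + 1))
      (fun j => X (Sum.inl (j.succ, q.2))) q.1)
    (fun u => X (Sum.inr u))

theorem pp_zero (R : Type) [CommRing R] (ε : R) (σ : Type) (M : ℕ) (I : σ) :
    pp R ε σ M (Sum.inl (0, I)) = X (Sum.inl (0, I)) + C ε * ∑ j : Fin M,
      X (Sum.inl (j.succ, I)) * X (Sum.inr ()) ^ ((j : ℕ) + 1) := rfl

theorem pp_succ (R : Type) [CommRing R] (ε : R) (σ : Type) (M : ℕ) (j : Fin M) (I : σ) :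
    pp R ε σ M (Sum.inl (j.succ, I)) = X (Sum.inl (j.succ, I)) := rfl

theorem pp_inr (R : Type) [CommRing R] (ε : R) (σ : Type) (M : ℕ) (u : Unit) :
    pp R ε σ M (Sum.inr u) = X (Sum.inr u) := rfl

theorem bind_pp (R : Type) [CommRing R] (σ : Type) (M : ℕ) (i : Ix σ M) :
    bind₁ (pp R 1 σ M) (pp R (-1) σ M i) = X i := by
  rcases i with ⟨j, I⟩ | u
  · induction j using Fin.cases with
    | zero =>
      rw [pp_zero]
      simp only [map_add, map_mul, map_sum, map_pow, bind₁_X_right, pp_zero,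
        pp_succ, pp_inr, map_one, map_neg]
      ring
    | succ j => rw [pp_succ, bind₁_X_right, pp_succ]
  · rw [pp_inr, bind₁_X_right, pp_inr]

/-- **GEN2.** -/
theorem main_GEN2 (h1 : S_MAIN) (h2 : S_FAM2) : S_GEN2 := by
  classical
  intro K _ _ _ k0 _ _ n N d m D ι0 ι H l T F hH hdim hN hl hF hT himg hm
  obtain ⟨K2, _, _, _, _, y, _, hy⟩ :=
    exists_ext k0 K ((Fin (2 * N + 2) × (Fin (N + 1) × Fin (n + 1))) ⊕ Unit)
  set s : K2 := y (Sum.inr ()) with hs
  let x : Ix (Fin (N + 1) × Fin (n + 1)) (2 * N + 2) → K2 :=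
    Sum.elim (fun q => Fin.cases (algebraMap K K2 (l q.2.1 q.2.2))
    (fun j => y (Sum.inl (j, q.2))) q.1) (fun u => y (Sum.inr u))
  have x0 : ∀ I : Fin (N + 1) × Fin (n + 1), x (Sum.inl (0, I)) = algebraMap K K2 (l I.1 I.2) :=
    fun _ => rfl
  have x1 : ∀ (j : Fin (2 * N + 2)) (I : Fin (N + 1) × Fin (n + 1)),
      x (Sum.inl (j.succ, I)) = y (Sum.inl (j, I)) := fun _ _ => rfl
  have x2 : x (Sum.inr ()) = s := rfl
  have hx : AlgebraicIndependent k0 x := by
    have h3 := (hl.sumElim_comp hy).comp (ff (Fin (N + 1) × Fin (n + 1)) (2 * N + 2))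
      (ff_inj (Fin (N + 1) × Fin (n + 1)) (2 * N + 2))
    have h4 : x = Sum.elim y (algebraMap K K2 ∘ fun p : Fin (N + 1) × Fin (n + 1) => l p.1 p.2) ∘
        ff (Fin (N + 1) × Fin (n + 1)) (2 * N + 2) := by
      funext i
      rcases i with ⟨j, I⟩ | u
      · induction j using Fin.cases with
        | zero => rfl
        | succ j => rfl
      · rfl
    rw [h4]; exact h3
  have hz := algInd_subst hx (pp k0 (-1) (Fin (N + 1) × Fin (n + 1)) (2 * N + 2))
    (pp k0 1 (Fin (N + 1) × Fin (n + 1)) (2 * N + 2))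
    (bind_pp k0 (Fin (N + 1) × Fin (n + 1)) (2 * N + 2))
  let z : Fin (2 * N + 2 + 1) × (Fin (N + 1) × Fin (n + 1)) → K2 := fun q =>
    aeval x (pp k0 (-1) (Fin (N + 1) × Fin (n + 1)) (2 * N + 2) (Sum.inl q))
  have hz' : AlgebraicIndependent k0 (Sum.elim z (fun _ : Unit => s)) := by
    have h4 : Sum.elim z (fun _ : Unit => s) = fun i =>
        aeval x (pp k0 (-1) (Fin (N + 1) × Fin (n + 1)) (2 * N + 2) i) := by
      funext i
      rcases i with q | u
      · rfl
      · rw [pp_inr, aeval_X]; rfl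
    rw [h4]; exact hz
  have z0 : ∀ I : Fin (N + 1) × Fin (n + 1), z (0, I) = algebraMap K K2 (l I.1 I.2) -
      ∑ j : Fin (2 * N + 2), y (Sum.inl (j, I)) * s ^ ((j : ℕ) + 1) := by
    intro I
    change aeval x (pp k0 (-1) (Fin (N + 1) × Fin (n + 1)) (2 * N + 2) (Sum.inl (0, I))) = _
    rw [pp_zero]
    simp only [map_add, map_mul, map_sum, map_pow, aeval_X, x0, x1, x2, map_neg, map_one]
    ring
  have z1 : ∀ (j : Fin (2 * N + 2)) (I : Fin (N + 1) × Fin (n + 1)),
      z (j.succ, I) = y (Sum.inl (j, I)) := by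
    intro j I
    change aeval x (pp k0 (-1) (Fin (N + 1) × Fin (n + 1)) (2 * N + 2) (Sum.inl (j.succ, I))) = _
    rw [pp_succ, aeval_X, x1]
  obtain ⟨k, _, _, _, _, htow, hzk, hst, htr⟩ := exists_mid k0 K2 z s hz'
  choose α hα using hzk
  have hαind : AlgebraicIndependent k0 α := by
    apply AlgebraicIndependent.of_comp (IsScalarTower.toAlgHom k0 k K2)
    have h4 : (IsScalarTower.toAlgHom k0 k K2 : k → K2) ∘ α = Sum.elim z (fun _ : Unit => s) ∘
        Sum.inl := by
      funext q
      exact hα q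
    rw [h4]
    exact hz'.comp Sum.inl Sum.inl_injective
  let P : Fin (2 * N + 3) → Fin (N + 1) → Fin (n + 1) → k := fun r a i => α (r, (a, i))
  have hleq : ∀ (a : Fin (N + 1)) (i : Fin (n + 1)),
      ∑ r : Fin (2 * N + 3), s ^ (r : ℕ) * algebraMap k K2 (P r a i) =
        algebraMap K K2 (l a i) := by
    intro a i
    have h4 : ∀ r : Fin (2 * N + 3), algebraMap k K2 (P r a i) = z (r, (a, i)) :=
      fun r => hα (r, (a, i))
    simp only [h4]
    change ∑ r : Fin (2 * N + 2 + 1), s ^ (r : ℕ) * z (r, (a, i)) = _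
    rw [Fin.sum_univ_succ]
    simp only [z0, z1, Fin.val_zero, Fin.val_succ, pow_zero, one_mul]
    rw [Finset.sum_congr rfl fun (j : Fin (2 * N + 2)) _ =>
      mul_comm (s ^ ((j : ℕ) + 1)) (y (Sum.inl (j, (a, i))))]
    ring
  have hc0 : CharZero k0 := (algebraMap k0 K).charZero
  have hck : CharZero k := charZero_of_injective_algebraMap (algebraMap k0 k).injective
  have hm0 : 0 < m := lt_of_le_of_lt (Nat.zero_le _) hm
  have hft := h2 k0 k K2 s hst htr n N d m ι0 H hH hdim hN hm0 P hαind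
  simp only [hleq] at hft
  have hfp := h1 k K2 htr N m D ι Unit T (fun i => map (algebraMap K K2) (F i))
    (fun _ => 1) (fun i => (hF i).map _)
    (fun i => (support_map_subset _ _).trans (hT i))
    (fun _ => ⟨0, isHomogeneous_one _ _⟩) hm (by
      intro μ hμ
      refine (hft μ hμ).subset ?_
      rintro p ⟨c, hc, ⟨⟨hc0, hcV⟩, -⟩, hp⟩
      refine ⟨c, hc, ⟨hc0, ?_⟩, hp⟩
      obtain ⟨v, hv1, hv2⟩ := himg K2 (fun j => (μ j * algebraMap k K2 (c j)) ^ m) (by
        intro i
        have h5 : aeval (fun j => μ j * algebraMap k K2 (c j))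
            (expand m (map (algebraMap K K2) (F i))) = 0 := hcV i
        rw [aeval_expand, aeval_map_algebraMap] at h5
        exact h5)
      refine ⟨v, fun i => ?_, hv2⟩
      have h6 := hv1 i
      rwa [aeval_map_algebraMap] at h6)
  refine finPts_descend k0 k K K2 _ _ ?_ hfp
  rintro v ⟨hv0, hv⟩
  refine ⟨⟨?_, fun i => ?_⟩, (), ?_⟩
  · intro h0
    apply hv0
    funext i
    exact (map_eq_zero (algebraMap K K2)).mp (congrFun h0 i)
  · have h5 : aeval v (expand m (F i)) = 0 := hv i
    change aeval (fun i => algebraMap K K2 (v i)) (expand m (map (algebraMap K K2) (F i))) = 0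
    rw [← map_expand, aeval_map, h5, map_zero]
  · change aeval (fun i => algebraMap K K2 (v i)) (1 : MvPolynomial (Fin (N + 1)) K2) ≠ 0
    rw [map_one]; exact one_ne_zero

end Pool.Agent.N353.IS
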